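import Mathlib
import Pool.Agent.Lib.MP_946880_lc.BorNo

open Pool.Agent.Lib.MP_946880_lc

/-- For every `n ≥ 2` there is a locally checkable labeling problem on `ℤ ^ n` that has a Borel
solution on every free Borel action on a standard Borel space, but no solution of Baire class one
on the free part of the shift on `(2 ^ ω) ^ (ℤ ^ n)`. -/
theorem Pool.Agent.Results.MP_946880_lc.BorelNotBaireOne.result (n : ℕ) (hn : 2 ≤ n) :
    ∃ (Λ : Type) (_ : Fintype Λ) (S : Finset (Fin n → ℤ)) (𝒜 : Set (S → Λ)),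
      (∀ (X : Type) [MeasurableSpace X] [StandardBorelSpace X] [AddAction (Fin n → ℤ) X],
        (∀ γ : Fin n → ℤ, Measurable fun x : X => γ +ᵥ x) →
        (∀ (γ : Fin n → ℤ) (x : X), γ +ᵥ x = x → γ = 0) →
        ∃ f : X → Λ, (∀ l, MeasurableSet (f ⁻¹' {l})) ∧
          ∀ x : X, (fun γ : S => f (γ.1 +ᵥ x)) ∈ 𝒜) ∧
      ¬ ∃ f : FreePart (Fin n → ℤ) → Λ,
        (∀ l, ∃ C : ℕ → Set (FreePart (Fin n → ℤ)), (∀ i, IsClosed (C i)) ∧ f ⁻¹' {l} = ⋃ i, C i) ∧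
        ∀ x, (fun γ : S => f (shift γ.1 x)) ∈ 𝒜 :=
  Bor.final_of (fun α β hα hβ _ => Bor.no_sol α β hα hβ) n hn
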